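import Pool.Agent.H72.EQQ.Targets

/-!
Row SMA of the board eqq: the sum over large squarefree numbers (helper52).
-/

set_option autoImplicit false

namespace Pool.Agent.H52.EQQ

open Pool.Agent.H72.EQQ Finset

/-- a sum over squarefree numbers is bounded by an Euler product -/
theorem sma_euler {g : ℕ → ℝ} (hg : ∀ n, 0 ≤ g n) (F : Finset ℕ) (hF : ∀ m ∈ F, Squarefree m) :
    ∑ m ∈ F, ∏ p ∈ m.primeFactors, g p ≤
      Real.exp (∑ p ∈ F.biUnion Nat.primeFactors, g p) := by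
  classical
  set U : Finset ℕ := F.biUnion Nat.primeFactors with hU
  have hinj : Set.InjOn Nat.primeFactors (F : Set ℕ) := by
    intro m hm m' hm' h
    rw [← Nat.prod_primeFactors_of_squarefree (hF m hm),
      ← Nat.prod_primeFactors_of_squarefree (hF m' hm'), h]
  calc ∑ m ∈ F, ∏ p ∈ m.primeFactors, g p
      = ∑ S ∈ F.image Nat.primeFactors, ∏ p ∈ S, g p := by
        rw [sum_image hinj]
    _ ≤ ∑ S ∈ U.powerset, ∏ p ∈ S, g p := by
        refine sum_le_sum_of_subset_of_nonneg ?_ fun S _ _ => prod_nonneg fun p _ => hg p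
        intro S hS
        obtain ⟨m, hm, rfl⟩ := mem_image.1 hS
        rw [mem_powerset, hU]
        exact subset_biUnion_of_mem Nat.primeFactors hm
    _ = ∏ p ∈ U, (1 + g p) := by rw [prod_one_add]
    _ ≤ ∏ p ∈ U, Real.exp (g p) := by
        refine prod_le_prod (fun p _ => by have := hg p; linarith) fun p _ => ?_
        rw [add_comm]
        exact Real.add_one_le_exp _
    _ = Real.exp (∑ p ∈ U, g p) := by rw [Real.exp_sum]

theorem pf_SMA : T_SMA := by
  intro a ha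
  have hs : Summable fun n : ℕ => (n : ℝ) ^ (-(13 / 12) : ℝ) :=
    Real.summable_nat_rpow.2 (by norm_num)
  set g : ℕ → ℝ := fun n => a * (n : ℝ) ^ (-(13 / 12) : ℝ) with hg
  have hg0 : ∀ n, 0 ≤ g n := fun n => mul_nonneg ha (Real.rpow_nonneg (Nat.cast_nonneg n) _)
  refine ⟨Real.exp (a * ∑' n : ℕ, (n : ℝ) ^ (-(13 / 12) : ℝ)), Real.exp_pos _, ?_⟩
  intro D F hD hF
  have hD0 : 0 < D := by linarith
  have hDp : 0 ≤ D ^ (-(1 / 4) : ℝ) := Real.rpow_nonneg hD0.le _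
  have h1 : ∀ m ∈ F, a ^ m.primeFactors.card * (m : ℝ) ^ (-(4 / 3) : ℝ) ≤
      (∏ p ∈ m.primeFactors, g p) * D ^ (-(1 / 4) : ℝ) := by
    intro m hm
    obtain ⟨hsq, hDm⟩ := hF m hm
    have hm0 : (0 : ℝ) < m := by linarith
    have e1 : ∏ p ∈ m.primeFactors, g p =
        a ^ m.primeFactors.card * (m : ℝ) ^ (-(13 / 12) : ℝ) := by
      simp only [hg]
      rw [prod_mul_distrib, prod_const, Real.finsetProd_rpow _ _
        (fun p _ => Nat.cast_nonneg p)]
      congr 2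
      have e0 := congrArg (fun n : ℕ => (n : ℝ)) (Nat.prod_primeFactors_of_squarefree hsq)
      simp only [Nat.cast_prod] at e0
      exact e0
    have e2 : (m : ℝ) ^ (-(4 / 3) : ℝ) =
        (m : ℝ) ^ (-(13 / 12) : ℝ) * (m : ℝ) ^ (-(1 / 4) : ℝ) := by
      rw [← Real.rpow_add hm0]
      norm_num
    have e3 : (m : ℝ) ^ (-(1 / 4) : ℝ) ≤ D ^ (-(1 / 4) : ℝ) :=
      Real.rpow_le_rpow_of_nonpos hD0 hDm.le (by norm_num)
    rw [e1, e2, ← mul_assoc]
    exact mul_le_mul_of_nonneg_left e3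
      (mul_nonneg (pow_nonneg ha _) (Real.rpow_nonneg hm0.le _))
  calc ∑ m ∈ F, a ^ m.primeFactors.card * (m : ℝ) ^ (-(4 / 3) : ℝ)
      ≤ ∑ m ∈ F, (∏ p ∈ m.primeFactors, g p) * D ^ (-(1 / 4) : ℝ) := sum_le_sum h1
    _ = (∑ m ∈ F, ∏ p ∈ m.primeFactors, g p) * D ^ (-(1 / 4) : ℝ) := by rw [sum_mul]
    _ ≤ Real.exp (a * ∑' n : ℕ, (n : ℝ) ^ (-(13 / 12) : ℝ)) * D ^ (-(1 / 4) : ℝ) := by
        refine mul_le_mul_of_nonneg_right ?_ hDp
        refine (sma_euler hg0 F fun m hm => (hF m hm).1).trans ?_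
        refine Real.exp_le_exp.2 ?_
        simp only [hg]
        rw [← mul_sum]
        refine mul_le_mul_of_nonneg_left ?_ ha
        exact hs.sum_le_tsum _ fun n _ => Real.rpow_nonneg (Nat.cast_nonneg n) _

end Pool.Agent.H52.EQQ
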